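import Mathlib
import Pool.Agent.TH127.SC.Char0
import Pool.Agent.W527.DominantTate

/-!
# Multiplicative relations between the conjugates of Weil numbers in blocks separated by partial
# complex conjugations
-/

set_option autoImplicit false
set_option linter.unusedSectionVars false

namespace Pool.Agent.Q135.Blk

open NumberField Module Pool.Agent.W527 Pool.Agent.H204R3.CM Pool.Agent.H977R3.WN
  Pool.Agent.H485R3.Exact Pool.Agent.H204R3.GP Pool.Agent.H204R3.SP IntermediateField
  Pool.Agent.TH127.SC

noncomputable section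

variable {ι β : Type} {F : ι → Type} [∀ i, Field (F i)]

/-- For every block some automorphism of the complex numbers conjugates the embeddings of the fields
of the block and fixes the embeddings of all the other fields. -/
def BlocksFlip (F : ι → Type) [∀ i, Field (F i)] (B : ι → β) : Prop :=
  ∀ b : β, ∃ g : ℂ ≃+* ℂ, ∀ (i : ι) (φ : F i →+* ℂ) (x : F i),
    (B i = b → g (φ x) = starRingEnd ℂ (φ x)) ∧ (B i ≠ b → g (φ x) = φ x)

variable [Fintype ι] [∀ i, NumberField (F i)] [∀ i, IsCMField (F i)]

/-- Relations between the conjugates split along the blocks. -/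
theorem free_of_blocks (B : ι → β) {L : Type} [Field L] [NumberField L] [IsGalois ℚ L]
    (j : L →+* ℂ) (hflip : BlocksFlip F B)
    (e : ∀ i, (F i →+* L) → ℤ) (hanti : ∀ i φ, e i (cbar φ) = - e i φ)
    (h : ∀ b, ∀ [Fintype {i // B i = b}],
      Free (F := fun i : {i // B i = b} => F i) (L := L) (fun i φ => e i φ)) :
    Free (F := F) (L := L) e := by
  classical
  intro c hc hrel i₀ φ₀
  obtain ⟨g, hg⟩ := hflip (B i₀)
  obtain ⟨κ, hκ⟩ := exists_lift j g
  have hκ1 : ∀ k, B k = B i₀ → ∀ φ : F k →+* L, κ • φ = cbar φ := by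
    intro k hk φ
    apply Pool.Agent.W527.comp_injective j
    change j.comp (κ • φ) = j.comp (cbar φ)
    rw [comp_cbar]
    refine RingHom.ext fun x => ?_
    rw [ComplexEmbedding.conjugate_coe_eq]
    exact (hκ (φ x)).symm.trans ((hg k (j.comp φ) x).1 hk)
  have hκ2 : ∀ k, B k ≠ B i₀ → ∀ φ : F k →+* L, κ • φ = φ := by
    intro k hk φ
    apply Pool.Agent.W527.comp_injective j
    change j.comp (κ • φ) = j.comp φ
    refine RingHom.ext fun x => ?_
    exact (hκ (φ x)).symm.trans ((hg k (j.comp φ) x).2 hk)
  have key : ∀ σ : L ≃ₐ[ℚ] L,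
      ∑ k : {k // B k = B i₀}, ∑ φ : (F k →+* L), c k φ * e k (σ • φ) = 0 := by
    intro σ
    let S : ι → ℤ := fun k => ∑ φ : (F k →+* L), c k φ * e k (σ • φ)
    have h1 : ∑ k, S k = 0 := hrel σ
    have h2 := hrel (κ * σ)
    have h3 : ∀ k, ∑ φ : (F k →+* L), c k φ * e k ((κ * σ) • φ) =
        if B k = B i₀ then - S k else S k := by
      intro k
      by_cases hk : B k = B i₀
      · rw [if_pos hk, ← Finset.sum_neg_distrib]
        refine Finset.sum_congr rfl fun φ _ => ?_
        rw [mul_smul, hκ1 k hk, hanti]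
        ring
      · rw [if_neg hk]
        refine Finset.sum_congr rfl fun φ _ => ?_
        rw [mul_smul, hκ2 k hk]
    rw [Finset.sum_congr rfl (fun k _ => h3 k)] at h2
    have h4 : ∑ k, (if B k = B i₀ then S k else 0) = 0 := by
      have h5 : ∑ k, (S k - if B k = B i₀ then - S k else S k) = 0 := by
        rw [Finset.sum_sub_distrib, h1, h2, sub_zero]
      have h6 : ∀ k, (S k - if B k = B i₀ then - S k else S k) =
          2 * (if B k = B i₀ then S k else 0) := by
        intro k
        by_cases hk : B k = B i₀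
        · simp only [hk, if_true]; ring
        · simp only [hk, if_false]; ring
      rw [Finset.sum_congr rfl (fun k _ => h6 k), ← Finset.mul_sum] at h5
      exact (mul_eq_zero.1 h5).resolve_left (by norm_num)
    rw [← Finset.sum_filter] at h4
    rw [← h4]
    exact (Finset.sum_subtype (Finset.univ.filter fun k => B k = B i₀) (by simp) S).symm
  exact h (B i₀) (fun k φ => c k φ) (fun k φ => hc k φ) key ⟨i₀, rfl⟩ φ₀

/-- The property `Free` for a family with one member. -/
theorem free_of_unique {L : Type} [Field L] [NumberField L]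
    (e : ∀ i, (F i →+* L) → ℤ) (i : ι) (hi : ∀ i', i' = i)
    (h : Free (F := fun _ : Unit => F i) (L := L) (fun _ φ => e i φ)) :
    Free (F := F) (L := L) e := by
  classical
  intro c hc hrel i₀ φ₀
  have huniq : Unique ι := ⟨⟨i⟩, hi⟩
  have hd : ∀ f : ι → ℤ, ∑ k, f k = f i := by
    intro f
    rw [Fintype.sum_eq_single i (fun k hk => absurd (hi k) hk)]
  have h1 := h (fun _ φ => c i φ) (fun _ φ => hc i φ) (fun σ => by
    rw [Fintype.sum_unique]
    have h2 := hrel σ
    rw [hd] at h2
    exact h2)
  obtain rfl := hi i₀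
  exact h1 () φ₀

end

end Pool.Agent.Q135.Blk
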