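import Mathlib
import Pool.Agent.Q135.Blk.Free

/-!
# Tate classes and Weil numbers in blocks separated by partial complex conjugations
-/

set_option autoImplicit false
set_option linter.unusedSectionVars false

namespace Pool.Agent.Q135.Blk

open NumberField Module Pool.Agent.W527 Pool.Agent.H204R3.CM Pool.Agent.H977R3.WN
  Pool.Agent.H485R3.Exact Pool.Agent.H204R3.GP Pool.Agent.H204R3.SP IntermediateField
  Pool.Agent.TH127.SC

noncomputable section

/-- At one pair of conjugate embeddings of `K` into an algebraic closure of `ℚ_p` the distance of the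
slope of `π` from the middle slope is at least the sum of the distances at all other pairs, or at most
two pairs have a slope different from the middle slope; and for no CM subfield `T` of `K` the norm of
`π` to `T` is supersingular. -/
def Dominates (p : ℕ) [Fact p.Prime] (a : ℕ) {K : Type} [Field K] [NumberField K] (π : K) : Prop :=
  (DominantSlope p a π ∨ {τ : K →+* PadicAlgCl p | ‖τ π‖ ^ 2 ≠ ((p : ℝ) ^ a)⁻¹}.ncard ≤ 4) ∧
    ∀ T : IntermediateField ℚ K, ¬ IsTotallyReal T → ∀ n : ℕ, 0 < n →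
      Norm.unitNorm p a T π ^ n ≠ 1

/-- The family of Weil numbers has one member and a dominant slope, or all families of CM
subfields are mild or have a good class and the norms are separated. -/
def BlockCondition (p : ℕ) [Fact p.Prime] (a : ℕ) {I : Type} {K : I → Type} [∀ i, Field (K i)]
    [∀ i, NumberField (K i)] (π : ∀ i, K i) : Prop :=
  (∃ i, (∀ i', i' = i) ∧ Dominates p a (π i)) ∨
    (MildOrGood p (fun _ => a) π ∧ Norm.Separated p (fun _ => a) π)

variable {p : ℕ} [hp : Fact p.Prime] {a : ℕ}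

theorem free_of_condition {I : Type} [Fintype I] {K : I → Type} [∀ i, Field (K i)]
    [∀ i, NumberField (K i)] [∀ i, IsCMField (K i)] {π : ∀ i, K i} (hcond : BlockCondition p a π)
    (hint : ∀ i, IsIntegral ℤ (π i))
    (hweil : ∀ i, ∀ φ : K i →+* ℂ, ‖φ (π i)‖ ^ 2 = (p : ℝ) ^ a)
    {κ : I → ℚ} (hκ : ∀ i, 0 < κ i) {u : ∀ i, (K i →+* PadicAlgCl p) → ℤ}
    (hu : ∀ i, ∀ τ : K i →+* PadicAlgCl p,
      2 * (- Real.logb p ‖τ (π i)‖) - a = (κ i : ℝ) * u i τ)
    {L : Type} [Field L] [NumberField L] [IsGalois ℚ L] (j : L →+* ℂ)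
    (h : ∀ i, ∀ ψ : K i →+* ℂ, ∃ φ : K i →+* L, j.comp φ = ψ) (jp : L →+* PadicAlgCl p) :
    Free (F := K) (L := L) (fun i φ => u i (jp.comp φ)) := by
  rcases hcond with ⟨i, hi, hdom, hnn⟩ | ⟨h1, h2⟩
  · exact free_of_unique _ i hi (free_of_dominant_slope (hint i) (hweil i) hdom hnn (hκ i) (hu i) j
      (h i) jp)
  · exact free_of_mildOrGood (m := fun _ => a) hint hweil h1 h2 hκ hu j h jp

variable (ha : 0 < a) {ι β : Type} [Fintype ι] {F : ι → Type} [∀ i, Field (F i)]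
  [∀ i, NumberField (F i)] [∀ i, IsCMField (F i)] {π : ∀ i, F i} (hint : ∀ i, IsIntegral ℤ (π i))
  (hgen : ∀ i, ℚ⟮π i⟯ = ⊤)
  (hw : ∀ i, π i * IsCMField.complexConj (F i) (π i) = (p : F i) ^ a)
  (B : ι → β) (hflip : BlocksFlip F B)
  (hcond : ∀ b, BlockCondition p a (fun i : {i // B i = b} => π i))

include hint hw hflip hcond in
theorem free_blocks {κ : ι → ℚ} (hκ : ∀ i, 0 < κ i) {u : ∀ i, (F i →+* PadicAlgCl p) → ℤ}
    (hu : ∀ i, ∀ τ : F i →+* PadicAlgCl p,
      2 * (- Real.logb p ‖τ (π i)‖) - a = (κ i : ℝ) * u i τ)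
    {L : Type} [Field L] [NumberField L] [IsGalois ℚ L] (j : L →+* ℂ)
    (h : ∀ i, ∀ ψ : F i →+* ℂ, ∃ φ : F i →+* L, j.comp φ = ψ) (jp : L →+* PadicAlgCl p) :
    Free (F := F) (L := L) (fun i φ => u i (jp.comp φ)) := by
  have hweil : ∀ i, ∀ φ : F i →+* ℂ, ‖φ (π i)‖ ^ 2 = (p : ℝ) ^ a := weil_of_mul hw
  refine free_of_blocks B j hflip _
    (fun i φ => anti_of_slopes' (hweil i) (hκ i).ne' (hu i) (jp.comp φ)) ?_
  intro b _
  exact free_of_condition (hcond b) (fun i => hint i) (fun i => hweil i) (κ := fun i => κ i)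
    (fun i => hκ i) (u := fun i => u i) (fun i => hu i) j (fun i => h i) jp

include ha hint hgen hw hflip hcond in
/-- Tate forms are combinations of products of Tate forms of degree two. -/
theorem tate_of_blocks {k : Type} [Field k] [CharZero k] {V : Type} [AddCommGroup V]
    [Module k V] [FiniteDimensional k V]
    {Γ : Type} [Group Γ] (ρ : Representation k Γ V) (χ : Γ →* k)
    (ω : V →ₗ[k] V →ₗ[k] k) (halt : ∀ v, ω v v = 0) (hnd : ∀ u, (∀ v, ω v u = 0) → u = 0)
    (hωρ : ∀ s u v, ω (ρ s u) (ρ s v) = χ s * ω u v)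
    (hss : FiniteIndexSemisimple ρ)
    (γ : Γ) (hχ : χ γ = (p : k) ^ a)
    (hγ : (ρ γ).charpoly = ∏ i, (minpoly ℚ (π i)).map (algebraMap ℚ k))
    {m : ℕ} (φ : MultilinearMap k (fun _ : Fin m × Fin 2 => V) k) (hφ : IsTate ρ χ m φ) :
    φ ∈ Submodule.span k (PT ρ χ m) := by
  have hss' : ∀ Δ : Subgroup Γ, Δ.FiniteIndex → SemiUnder (ρ '' (Δ : Set Γ)) := by
    intro Δ hΔ U hU
    obtain ⟨U', h1, h2⟩ := hss Δ hΔ U (fun s hs u hu => hU _ ⟨s, hs, rfl⟩ u hu)
    refine ⟨U', ?_, h2⟩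
    rintro _ ⟨s, hs, rfl⟩ u hu
    exact h1 s hs u hu
  have hweil : ∀ i, ∀ φ : F i →+* ℂ, ‖φ (π i)‖ ^ 2 = (p : ℝ) ^ a := weil_of_mul hw
  have hπ : ∀ i, π i ≠ 0 := fun i => ne_zero_of_weil (p := p) (m := a) (hweil i)
  choose D u hD hslopes hu using fun i => exists_hasSlopes (p := p) ha (hπ i)
  refine tate_of_free ha hgen hw (N := fun i => a * D i) (fun i => Nat.mul_pos ha (hD i)) (u := u)
    hslopes ?_ ρ χ ω halt hnd hωρ hss' γ hχ hγ φ hφ
  intro L _ _ j h jp
  exact free_blocks hint hw B hflip hcond (κ := fun i => ((D i : ℚ))⁻¹) (fun i => by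
        have := hD i
        positivity) hu j h jp

end

end Pool.Agent.Q135.Blk
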