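import Mathlib
import Pool.Agent.Q135.Blk.Free
import Pool.Agent.TH127.PG.Final
import Pool.Agent.TH127.PG.Cond
import Pool.Agent.TH127.PG.IndepTypes

/-!
# De Rham-Betti classes on abelian varieties of CM type in blocks separated by partial complex
# conjugations
-/

set_option autoImplicit false
set_option linter.unusedSectionVars false

namespace Pool.Agent.Q135.Blk

open NumberField Pool.Agent.H204R3.CM Pool.Agent.W547.KB Pool.Agent.W537.PC Module
  Pool.Agent.W527 Pool.Agent.W527.Dec Pool.Agent.W527.Struct Pool.Agent.H977R3.WN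
  Pool.Agent.W527.Vec Pool.Agent.W527.Per Pool.Agent.TH127.SC Pool.Agent.TH127.PG

noncomputable section

variable {ι β : Type} {A : ι → CMPair} {P : PeriodSystem}

/-- The block `b` of the family `A`. -/
abbrev block (A : ι → CMPair) (B : ι → β) (b : β) : {i // B i = b} → CMPair := fun i => A i

theorem allHodge_block (B : ι → β) (h : AllHodge P A) (b : β) : AllHodge P (block A B b) :=
  fun J _ t k f hf => h J (fun a => (t a).1) k f hf

variable [Fintype ι]

/-- De Rham-Betti classes are Hodge classes if this is true for every block. -/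
theorem allHodge_of_blocks (hD : P.Deligne) (B : ι → β)
    (hflip : BlocksFlip (fun i => (A i).E) B)
    (hall : ∀ b, AllHodge P (block A B b)) : AllHodge P A := by
  classical
  rcases isEmpty_or_nonempty ι with hι | hι
  · intro J _ t k f hf
    have hJ : IsEmpty J := ⟨fun a => hι.false (t a)⟩
    rcases isEmpty_or_nonempty (Fin (2 * k)) with hκ | ⟨⟨k0⟩⟩
    · exact hodge_unit f
    · have h1 : f = 0 := by
        ext v
        have h2 : v k0 = 0 := by
          funext i
          exact (hJ.false i).elim
        rw [f.map_coord_zero k0 h2]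
        rfl
      rw [h1]
      exact hodge_zero _ _
  obtain ⟨L, _, _, _, _, j, hj⟩ := exists_cm (⟨ι, A⟩ : CMAV)
  have hj' : ∀ i, ∀ ψ : (A i).E →+* ℂ, ∃ φ : (A i).E →+* L, j.comp φ = ψ := hj
  intro J _ t k f hf
  refine hodge_of_drb_alg j P (productOf A t) (fun a => hj' (t a)) k (fun I hI => ?_) f hf
  let y : Fin (2 * k) → EE A L := fun l => ⟨t (I l).1, (I l).2⟩
  have hI' : ∀ g : L ≃ₐ[ℚ] L, ∑ l, ww A j P (y l).1 (g • (y l).2) = 0 := hI
  -- the relations split
  have hsplit : ∀ (b : β) (g : L ≃ₐ[ℚ] L),
      ∑ l, (if B (y l).1 = b then ww A j P (y l).1 (g • (y l).2) else 0) = 0 := by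
    intro b g
    obtain ⟨τ, hτ⟩ := hflip b
    obtain ⟨κ, hκ⟩ := exists_lift j τ
    have hκ1 : ∀ k, B k = b → ∀ φ : (A k).E →+* L, κ • φ = cbar φ := by
      intro k hk φ
      apply Pool.Agent.W527.comp_injective j
      change j.comp (κ • φ) = j.comp (cbar φ)
      rw [comp_cbar]
      refine RingHom.ext fun x => ?_
      rw [ComplexEmbedding.conjugate_coe_eq]
      exact (hκ (φ x)).symm.trans ((hτ k (j.comp φ) x).1 hk)
    have hκ2 : ∀ k, B k ≠ b → ∀ φ : (A k).E →+* L, κ • φ = φ := by
      intro k hk φ
      apply Pool.Agent.W527.comp_injective j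
      change j.comp (κ • φ) = j.comp φ
      refine RingHom.ext fun x => ?_
      exact (hκ (φ x)).symm.trans ((hτ k (j.comp φ) x).2 hk)
    have h1 := hI' g
    have h2 := hI' (κ * g)
    have h3 : ∑ l, (ww A j P (y l).1 (g • (y l).2) -
        ww A j P (y l).1 ((κ * g) • (y l).2)) = 0 := by
      rw [Finset.sum_sub_distrib, h1, h2, sub_zero]
    have h4 : ∀ l, ww A j P (y l).1 (g • (y l).2) - ww A j P (y l).1 ((κ * g) • (y l).2) =
        (2 : ℤ) • (if B (y l).1 = b then ww A j P (y l).1 (g • (y l).2) else 0) := by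
      intro l
      by_cases hl : B (y l).1 = b
      · rw [if_pos hl, mul_smul, hκ1 _ hl, ww_odd A j hD, sub_neg_eq_add, two_zsmul]
      · rw [if_neg hl, mul_smul, hκ2 _ hl, sub_self, smul_zero]
    rw [Finset.sum_congr rfl (fun l _ => h4 l), ← Finset.smul_sum] at h3
    exact zs_cancel two_ne_zero h3
  -- the relations between the types
  have hb : ∀ (b : β) (σ : L ≃ₐ[ℚ] L),
      ∑ l, (if B (y l).1 = b then ee A j (y l).1 (σ • (y l).2) else 0) = 0 := by
    intro b σ
    have _ : Fintype {i // B i = b} := Fintype.ofFinite _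
    let inc : EE (block A B b) L → EE A L := fun z => ⟨z.1.1, z.2⟩
    have hinc : Function.Injective inc := by
      rintro ⟨⟨i, hi⟩, φ⟩ ⟨⟨i', hi'⟩, φ'⟩ h
      have h0 : (⟨i, φ⟩ : Σ i, ((A i).E →+* L)) = ⟨i', φ'⟩ := h
      obtain ⟨h1, h2⟩ := Sigma.mk.inj h0
      subst h1
      rw [eq_of_heq h2]
    let N : EE (block A B b) L → ℕ := fun z => (Finset.univ.filter (fun l => y l = inc z)).card
    have hN : ∀ {U : Type} [AddCommGroup U] (F : EE A L → U), ∑ z, N z • F (inc z) =
        ∑ l, (if B (y l).1 = b then F (y l) else 0) := by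
      intro U _ F
      have h3 : ∀ z, N z • F (inc z) = ∑ l, if y l = inc z then F (inc z) else 0 := by
        intro z
        rw [← Finset.sum_filter, Finset.sum_const]
      rw [Finset.sum_congr rfl (fun z _ => h3 z), Finset.sum_comm]
      refine Finset.sum_congr rfl fun l _ => ?_
      by_cases hl : B (y l).1 = b
      · rw [if_pos hl]
        let z₀ : EE (block A B b) L := ⟨⟨(y l).1, hl⟩, (y l).2⟩
        have hz₀ : inc z₀ = y l := rfl
        rw [Finset.sum_eq_single z₀]
        · rw [if_pos hz₀.symm, hz₀]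
        · intro z _ hz
          rw [if_neg]
          intro h
          exact hz (hinc (h.symm.trans hz₀.symm))
        · intro h
          exact absurd (Finset.mem_univ _) h
      · rw [if_neg hl]
        refine Finset.sum_eq_zero fun z _ => ?_
        rw [if_neg]
        intro h
        apply hl
        rw [h]
        exact z.1.2
    have h1 := rel_of_hodge (A := block A B b) (j := j) (hall b) N (fun g => by
      refine (hN (fun z : EE A L => ww A j P z.1 (g • z.2))).trans (hsplit b g)) σ
    exact (hN (fun z : EE A L => ee A j z.1 (σ • z.2))).symm.trans h1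
  intro σ
  have h5 : ∑ l, ee A j (y l).1 (σ • (y l).2) = 0 := by
    have h6 : ∀ l, ee A j (y l).1 (σ • (y l).2) =
        ∑ b ∈ Finset.univ.image (fun l => B (y l).1),
          (if B (y l).1 = b then ee A j (y l).1 (σ • (y l).2) else 0) := by
      intro l
      rw [Finset.sum_ite_eq, if_pos (Finset.mem_image_of_mem _ (Finset.mem_univ l))]
    rw [Finset.sum_congr rfl (fun l _ => h6 l), Finset.sum_comm]
    exact Finset.sum_eq_zero fun b _ => hb b σ
  have h6 : ((∑ l, (⟨(productOf A t).factor (I l).1, (I l).2⟩ : Letter L).s j σ : ℤ) : ℚ) = 0 := by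
    push_cast
    exact h5
  exact_mod_cast h6

end

end Pool.Agent.Q135.Blk
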