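import Mathlib
import Pool.Agent.TH127.PG.Omega
import Pool.Agent.Q135.Blk.Per

/-!
# The smallest subtorsor that contains the period matrix, when all de Rham-Betti classes are Hodge
-/

set_option autoImplicit false
set_option linter.unusedSectionVars false
set_option linter.unusedVariables false

namespace Pool.Agent.Q135.Blk

open NumberField Pool.Agent.H204R3.CM Pool.Agent.W547.KB Pool.Agent.W537.PC Module
  Pool.Agent.W527 Pool.Agent.W527.Dec Pool.Agent.W527.Struct Pool.Agent.H977R3.WN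
  Pool.Agent.W527.Vec Pool.Agent.W527.Per Pool.Agent.TH127.SC Pool.Agent.TH127.PT
  Pool.Agent.TH127.PG Matrix

noncomputable section

/-- If all de Rham-Betti classes are Hodge classes, all relations between the logarithms of the
periods that hold together with their conjugates come from the types. -/
theorem rel_of_allHodge {ι : Type} [Fintype ι] {A : ι → CMPair} {P : PeriodSystem}
    {L : Type} [Field L] [NumberField L] [IsCMField L] [IsGalois ℚ L] {j : L →+* ℂ}
    (hD : P.Deligne) (hall : AllHodge P A)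
    (c : ∀ i, ((A i).E →+* L) → ℤ) (hc : ∀ i φ, c i (cbar φ) = - c i φ)
    (hW : ∀ g : L ≃ₐ[ℚ] L, ∑ i, ∑ φ : (A i).E →+* L, c i φ • ww A j P i (g • φ) = 0)
    (σ : L ≃ₐ[ℚ] L) : ∑ i, ∑ φ : (A i).E →+* L, c i φ • ee A j i (σ • φ) = 0 := by
  classical
  let cb : EE A L → EE A L := fun z => ⟨z.1, cbar z.2⟩
  have hcb : Function.Involutive cb := fun z => by simp only [cb, cbar_cbar]
  let N : EE A L → ℕ := fun z => (c z.1 z.2).toNat
  have hN : ∀ {U : Type} [AddCommGroup U] (F : EE A L → U), (∀ z, F (cb z) = - F z) →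
      ∑ z : EE A L, c z.1 z.2 • F z = (2 : ℤ) • ∑ z : EE A L, N z • F z := by
    intro U _ F hF
    have h1 : ∀ z : EE A L, c z.1 z.2 • F z = N z • F z + N (cb z) • F (cb z) := by
      intro z
      have h2 : c (cb z).1 (cb z).2 = - c z.1 z.2 := hc z.1 z.2
      rw [hF, smul_neg, ← sub_eq_add_neg, ← natCast_zsmul (F z) (N z),
        ← natCast_zsmul (F z) (N (cb z)), ← sub_smul]
      congr 1
      simp only [N]
      rw [h2]
      omega
    rw [Finset.sum_congr rfl (fun z _ => h1 z), Finset.sum_add_distrib]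
    have h3 : ∑ z, N (cb z) • F (cb z) = ∑ z, N z • F z :=
      Equiv.sum_comp (hcb.toPerm cb) (fun z => N z • F z)
    rw [h3, two_zsmul]
  have h1 : ∀ g : L ≃ₐ[ℚ] L, ∑ z : EE A L, N z • ww A j P z.1 (g • z.2) = 0 := by
    intro g
    have h2 := hN (fun z : EE A L => ww A j P z.1 (g • z.2)) (fun z => by
      have h3 : g • cbar z.2 = cbar (g • z.2) := rfl
      change ww A j P z.1 (g • cbar z.2) = _
      rw [h3, ww_odd A j hD])
    rw [Fintype.sum_sigma] at h2
    have h4 : (2 : ℤ) • ∑ z : EE A L, N z • ww A j P z.1 (g • z.2) = 0 := h2.symm.trans (hW g)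
    exact Pool.Agent.W527.Vec.zs_cancel two_ne_zero h4
  have h2 := rel_of_hodge (A := A) (j := j) hall N h1 σ
  have h3 := hN (fun z : EE A L => ee A j z.1 (σ • z.2)) (fun z => by
    have h3 : σ • cbar z.2 = cbar (σ • z.2) := rfl
    change ee A j z.1 (σ • cbar z.2) = _
    rw [h3, ee_odd A j])
  rw [h2, smul_zero, Fintype.sum_sigma] at h3
  exact h3

section

variable {ι : Type} (A : ι → CMPair) [Fintype ι] {P : PeriodSystem}

/-- Monomials in the periods which are algebraic together with all their conjugates come from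
characters that are trivial on the Mumford-Tate group. -/
theorem isMTChar_of_allHodge (hD : P.Deligne) (hall : AllHodge P A) (c : Embs (fun i => (A i).E) → ℤ)
    (hc : ∀ τ : ℂ ≃+* ℂ, ∏ x : Embs (fun i => (A i).E), P.θ (A x.1) x.2 ^ c (τ • x) ∈
      algebraicClosure ℚ ℂ) : IsMTChar A c := by
  classical
  rcases isEmpty_or_nonempty ι with hι | hι
  · intro τ
    refine Finset.sum_eq_zero fun x _ => ?_
    exact (hι.false x.1).elim
  obtain ⟨L, _, _, _, _, j, hj⟩ := exists_cm (⟨ι, A⟩ : CMAV)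
  have hj' : ∀ i, ∀ ψ : (A i).E →+* ℂ, ∃ φ : (A i).E →+* L, j.comp φ = ψ := hj
  let f : EE A L ≃ Embs (fun i => (A i).E) := embEquiv (F := fun i => (A i).E) j hj'
  have hf : ∀ z : EE A L, f z = (⟨z.1, j.comp z.2⟩ : Σ i, ((A i).E →+* ℂ)) := fun z => rfl
  let C : EE A L → ℤ := fun z => c (f z)
  have hτ : ∀ (τ : ℂ ≃+* ℂ) (g : L ≃ₐ[ℚ] L), Lifts j τ g → ∀ z : EE A L,
      τ • f z = f ⟨z.1, g • z.2⟩ := by
    rintro τ g hg ⟨i, φ⟩
    exact congrArg (fun χ => (⟨i, χ⟩ : Σ i, ((A i).E →+* ℂ))) (lifts_comp j hg φ)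
  let θ : EE A L → ℂ := fun z => P.θ (A z.1) (j.comp z.2)
  have hθ : ∀ z, θ z ≠ 0 := fun z => P.ne_zero _ _
  let sm : (L ≃ₐ[ℚ] L) → EE A L → EE A L := fun g z => ⟨z.1, g • z.2⟩
  have hsm : ∀ (g : L ≃ₐ[ℚ] L) (F : EE A L → VV), ∑ z, F (sm g z) = ∑ z, F z := by
    intro g F
    refine Fintype.sum_equiv ⟨sm g, sm g⁻¹, ?_, ?_⟩ _ _ fun z => rfl
    · rintro ⟨i, φ⟩
      change (⟨i, g⁻¹ • g • φ⟩ : EE A L) = _
      rw [inv_smul_smul]
    · rintro ⟨i, φ⟩
      change (⟨i, g • g⁻¹ • φ⟩ : EE A L) = _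
      rw [smul_inv_smul]
  -- logarithms
  have hlog : ∀ g : L ≃ₐ[ℚ] L, ∑ z, C z • lg (θ (sm g z)) = 0 := by
    intro g
    obtain ⟨τ, hg⟩ := exists_lift' j g⁻¹
    have h1 := hc τ
    rw [← Equiv.prod_comp f] at h1
    have h2 : ∏ z, P.θ (A (f z).1) (f z).2 ^ c (τ • f z) = ∏ z, θ z ^ C (sm g⁻¹ z) := by
      refine Finset.prod_congr rfl fun z _ => ?_
      rw [hτ τ g⁻¹ hg z]
      rfl
    rw [h2, ← lg_eq_zero (Finset.prod_ne_zero_iff.2 fun y _ => zpow_ne_zero _ (hθ y)),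
      lg_prod _ _ (fun y _ => zpow_ne_zero _ (hθ y))] at h1
    simp only [lg_zpow (hθ _)] at h1
    rw [← hsm g] at h1
    rw [← h1]
    refine Finset.sum_congr rfl fun z _ => ?_
    have h3 : sm g⁻¹ (sm g z) = z := by
      change (⟨z.1, g⁻¹ • g • z.2⟩ : EE A L) = z
      rw [inv_smul_smul]
    rw [h3]
  have hww : ∀ z : EE A L, ww A j P z.1 z.2 = (2 : ℤ) • lg (θ z) - lg tpi := by
    intro z
    change lg (θ z ^ 2 / tpi) = _
    rw [lg_div (pow_ne_zero _ (hθ z)) tpi_ne, lg_pow (hθ z), ← natCast_zsmul]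
    rfl
  have hE : ∀ g : L ≃ₐ[ℚ] L, ∑ z, C z • ww A j P z.1 (g • z.2) + (∑ z, C z) • lg tpi = 0 := by
    intro g
    have h2 : ∑ z, C z • ww A j P z.1 (g • z.2) = (2 : ℤ) • ∑ z, C z • lg (θ (sm g z)) -
        (∑ z, C z) • lg tpi := by
      rw [Finset.smul_sum, Finset.sum_smul, ← Finset.sum_sub_distrib]
      refine Finset.sum_congr rfl fun z _ => ?_
      rw [hww (sm g z), smul_sub, smul_comm]
    rw [h2, hlog g, smul_zero, zero_sub, neg_add_cancel]
  have hcbar : ∀ (g : L ≃ₐ[ℚ] L) (z : EE A L), ww A j P z.1 (g • cbar z.2) =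
      - ww A j P z.1 (g • z.2) := by
    intro g z
    have h1 : g • cbar z.2 = cbar (g • z.2) := rfl
    rw [h1, ww_odd A j hD]
  have hsum0 : ∑ z, C z = 0 := by
    have h1 := hE 1
    have h2 := hE (cc L)
    have h3 : ∑ z, C z • ww A j P z.1 (cc L • z.2) =
        - ∑ z, C z • ww A j P z.1 ((1 : L ≃ₐ[ℚ] L) • z.2) := by
      rw [← Finset.sum_neg_distrib]
      refine Finset.sum_congr rfl fun z _ => ?_
      rw [one_smul, cc_smul j, ww_odd A j hD, smul_neg]
    rw [h3] at h2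
    have h4 : (2 : ℤ) • ((∑ z, C z) • lg tpi) = 0 := by
      rw [two_zsmul]
      calc (∑ z, C z) • lg tpi + (∑ z, C z) • lg tpi =
          (∑ z, C z • ww A j P z.1 ((1 : L ≃ₐ[ℚ] L) • z.2) + (∑ z, C z) • lg tpi) +
          (- ∑ z, C z • ww A j P z.1 ((1 : L ≃ₐ[ℚ] L) • z.2) + (∑ z, C z) • lg tpi) := by abel
        _ = 0 := by rw [h1, h2, add_zero]
    have h5 := Pool.Agent.W527.Vec.zs_cancel two_ne_zero h4
    by_contra hcon
    have h6 := Pool.Agent.W527.Vec.zs_cancel hcon h5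
    exact tpi_transcendental ((lg_eq_zero tpi_ne).1 h6)
  have hrel : ∀ g : L ≃ₐ[ℚ] L, ∑ z, C z • ww A j P z.1 (g • z.2) = 0 := by
    intro g
    have h1 := hE g
    rwa [hsum0, zero_smul, add_zero] at h1
  let cb : EE A L → EE A L := fun z => ⟨z.1, cbar z.2⟩
  have hcb : Function.Involutive cb := fun z => by simp only [cb, cbar_cbar]
  have hodd2 : ∀ {U : Type} [AddCommGroup U] (F : EE A L → U), (∀ z, F (cb z) = - F z) →
      ∑ z, (C z - C (cb z)) • F z = (2 : ℤ) • ∑ z, C z • F z := by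
    intro U _ F hF
    have h3 : ∑ z, C (cb z) • F z = - ∑ z, C z • F z := by
      rw [← Equiv.sum_comp (hcb.toPerm cb), ← Finset.sum_neg_distrib]
      refine Finset.sum_congr rfl fun z _ => ?_
      change C (cb (cb z)) • F (cb z) = _
      rw [hcb z, hF, smul_neg]
    simp only [sub_smul]
    rw [Finset.sum_sub_distrib, h3, sub_neg_eq_add, two_zsmul]
  have key := fun σ => rel_of_allHodge (A := A) (j := j) hD hall (fun i φ => C ⟨i, φ⟩ - C ⟨i, cbar φ⟩)
    (fun i φ => by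
      simp only [cbar_cbar]
      ring)
    (fun g => by
      have h1 := hodd2 (fun z => ww A j P z.1 (g • z.2)) (fun z => hcbar g z)
      rw [hrel g, smul_zero, Fintype.sum_sigma] at h1
      exact h1) σ
  intro τ
  obtain ⟨g, hg⟩ := exists_lift j τ
  have h1 := key g
  have h2 := hodd2 (fun z => ee A j z.1 (g • z.2)) (fun z => by
    change ee A j z.1 (g • cbar z.2) = _
    have h3 : g • cbar z.2 = cbar (g • z.2) := rfl
    rw [h3, ee_odd A j])
  rw [Fintype.sum_sigma] at h2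
  have h3 : (2 : ℤ) • ∑ z, C z • ee A j z.1 (g • z.2) = 0 := h2.symm.trans h1
  have h4 : ∑ z, C z • ee A j z.1 (g • z.2) = 0 :=
    Pool.Agent.W527.Vec.zs_cancel two_ne_zero h3
  have h5 : ∑ z : EE A L, C z * wt (fun i => (A i).Φ) j z.1 (g • z.2) = 0 := by
    have h6 : ((∑ z : EE A L, C z * wt (fun i => (A i).Φ) j z.1 (g • z.2) : ℤ) : ℚ) = 0 := by
      rw [← h4]
      push_cast
      refine Finset.sum_congr rfl fun z _ => ?_
      rw [zsmul_eq_mul]
      rfl
    exact_mod_cast h6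
  rw [← Equiv.sum_comp f]
  have h6 : ∀ z : EE A L, (if (τ : ℂ →+* ℂ).comp (f z).2 ∈ (A (f z).1).Φ then c (f z) else 0) =
      (if j.comp (g • z.2) ∈ (A z.1).Φ then C z else 0) := by
    rintro ⟨i, φ⟩
    have h7 : (τ : ℂ →+* ℂ).comp (j.comp φ) = j.comp (g • φ) := lifts_comp j hg φ
    change (if (τ : ℂ →+* ℂ).comp (j.comp φ) ∈ (A i).Φ then _ else _) = _
    rw [h7]
  rw [Finset.sum_congr rfl (fun z _ => h6 z)]
  have h7 : ∀ z : EE A L, C z * wt (fun i => (A i).Φ) j z.1 (g • z.2) =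
      2 * (if j.comp (g • z.2) ∈ (A z.1).Φ then C z else 0) - C z := by
    intro z
    unfold wt
    split_ifs <;> ring
  rw [Finset.sum_congr rfl (fun z _ => h7 z), Finset.sum_sub_distrib, ← Finset.mul_sum,
    hsum0, sub_zero] at h5
  omega


end

section

variable {ι : Type} [Fintype ι] (A : ι → CMPair) {J : Type} [Fintype J] (t : J → ι)
  {N : Type} [Fintype N] [DecidableEq N]

variable {A t} in
/-- **The smallest subtorsor over a field that is linearly disjoint from the CM fields.** -/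
theorem mem_of_subtorsor_allHodge {P : PeriodSystem} (hD : P.Deligne)
    (hall : AllHodge P A) {K : Subfield ℂ}
    (hK : ∀ x ∈ K, IsAlgebraic ℚ x) (hKA : LinearlyDisjoint A K)
    {e : Basis N ℚ (∀ a, (A (t a)).E)} {M : Matrix N N ℂ} (hM : IsPeriodMatrix A t P e M)
    {T : Set (Matrix N N ℂ)} (hTs : IsSubtorsor K T) (hMT : M ∈ T) {g : Matrix N N ℂ}
    (hg : g ∈ mumfordTate A t e) : M * g ∈ T := by
  classical
  obtain ⟨B, hBa, hMB⟩ := hM
  obtain ⟨s, hs, hgs⟩ := hg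
  let θ : Embs (fun i => (A i).E) → ℂ := fun x => P.θ (A x.1) x.2
  have hθ : ∀ x, θ x ≠ 0 := fun x => P.ne_zero _ _
  let π : PEmbs A t → Embs (fun i => (A i).E) := fun y => (⟨t y.1, y.2⟩ : Σ i, ((A i).E →+* ℂ))
  have hPA : M = B * diagonal (fun y => θ (π y)) * embMatrix A t e := by
    rw [hMB]
    congr 1
    ext n y
    rw [Matrix.mul_diagonal]
    rfl
  have hgs' : embMatrix A t e * g =
      diagonal (fun y => ((s (π y) : ℂˣ) : ℂ)) * embMatrix A t e := by
    rw [hgs]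
    ext y n
    rw [Matrix.diagonal_mul]
    rfl
  have hdet : IsUnit M.det := (Matrix.isUnit_iff_isUnit_det M).1 (hTs.isUnit M hMT)
  have h1 : (M⁻¹ * (B * diagonal (fun y => θ (π y)))) * embMatrix A t e = 1 := by
    rw [Matrix.mul_assoc, ← hPA, Matrix.nonsing_inv_mul M hdet]
  set Ψ := M⁻¹ * (B * diagonal (fun y => θ (π y))) with hΨ
  have h2 : embMatrix A t e * Ψ = 1 := (Matrix.mul_eq_one_comm_of_card_eq _ _ _ (card_eq A t e)).1 h1
  have hπ : ∀ (σ : ℂ ≃+* ℂ) y, π (σ • y) = σ • π y := fun σ y => rfl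
  have hΦ : ∀ (σ : ℂ ≃+* ℂ) (y : PEmbs A t) n,
      σ (embMatrix A t e y n) = embMatrix A t e (σ • y) n := fun σ y n => rfl
  have hΦa : ∀ y n, IsAlgebraic ℚ (embMatrix A t e y n) := by
    intro y n
    have h5 : IsAlgebraic ℚ (e n y.1) := Algebra.IsAlgebraic.isAlgebraic _
    exact (isAlgebraic_algHom_iff (RingHom.equivRatAlgHom _ ℂ y.2) y.2.injective).2 h5
  have hmem : s ∈ HH h1 h2 hTs hMT π := by
    refine mem_of_char h1 h2 hTs hMT hPA s fun c hc => hs c ?_
    refine isMTChar_of_allHodge A hD hall c fun τ => ?_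
    obtain ⟨σ, hσ, hστ⟩ := hKA τ
    have h6 := char_algebraic hπ hΦ h1 h2 hTs hMT hθ hPA hK hBa hΦa hc hσ
    have h7 : ∀ x : Embs (fun i => (A i).E), σ • x = τ • x := by
      rintro ⟨i, φ⟩
      exact congrArg (fun χ => (⟨i, χ⟩ : Σ i, ((A i).E →+* ℂ))) (hστ i φ)
    have h8 : ∏ x : Embs (fun i => (A i).E), P.θ (A x.1) x.2 ^ c (τ • x) =
        ∏ x, θ x ^ c (σ • x) := Finset.prod_congr rfl fun x _ => by rw [h7]
    rw [h8]
    exact h6
  have hgE : g = Pool.Agent.TH127.PT.EE π (embMatrix A t e) Ψ s := by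
    unfold Pool.Agent.TH127.PT.EE
    rw [Matrix.mul_assoc, ← hgs', ← Matrix.mul_assoc, h1, Matrix.one_mul]
  rw [hgE]
  exact hmem


end

end

end Pool.Agent.Q135.Blk
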